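import Pool.Agent.H442Z.DQ.Main

set_option autoImplicit false

namespace Pool.Agent.Results.MP_1dbcb3_an.ACounterexample

open MeasureTheory Set
open scoped ENNReal

/-- For every exponent `α ∈ (0,1)` there are a continuous weight `ω ≥ 0` with (P) and (I) and a
measurable non-constant `u` on `(-1,1)` with `∫ |u|^α < ∞` and finite functional. -/
theorem result (α : ℝ) (h0 : 0 < α) (h1 : α < 1) :
    ∃ ω u : ℝ → ℝ, Continuous ω ∧ (∀ t, 0 ≤ ω t) ∧ (∀ t, 0 < t → 0 < ω t) ∧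
      ∫⁻ t in Ioi (1 : ℝ), ENNReal.ofReal (ω t / t ^ 2) = ∞ ∧
      Measurable u ∧ (¬ ∃ c : ℝ, ∀ᵐ x ∂(volume.restrict (Ioo (-1 : ℝ) 1)), u x = c) ∧
      ∫⁻ x in Ioo (-1 : ℝ) 1, ENNReal.ofReal (|u x| ^ α) < ∞ ∧
      ∫⁻ p in Ioo (-1 : ℝ) 1 ×ˢ Ioo (-1 : ℝ) 1,
        ENNReal.ofReal (ω (|u p.2 - u p.1| / |p.2 - p.1|) / |p.2 - p.1|) < ∞ := by
  open Pool.Agent.H442Z.DQ in
  exact ⟨om α, U α, om_cont α, om_nonneg α, om_pos α, diverge h0 h1, U_meas α, nonconst h0 h1,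
    lt_of_le_of_lt (setLIntegral_le_lintegral _ _) (summ h0 h1), finite_F h0 h1⟩

end Pool.Agent.Results.MP_1dbcb3_an.ACounterexample
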